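import Pool.Agent.helper25.TW.Spec2

/-! Row two:GDS (MP_f42afa_pr). -/

set_option autoImplicit false

namespace TP.TW

open DP MeasureTheory Finset

theorem GDS_mono {F G : Set (V → Bool)} (h : F ⊆ G) : Pr F ≤ Pr G := by
  haveI : IsProbabilityMeasure P1 := by
    unfold P1
    infer_instance
  unfold Pr
  exact MeasureTheory.measureReal_mono h (MeasureTheory.measure_ne_top _ _)

theorem GDS_union {ι : Type} (s : Finset ι) (F : ι → Set (V → Bool)) : Pr (⋃ i ∈ s, F i) ≤ ∑ i ∈ s, Pr (F i) := by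
  unfold Pr
  exact MeasureTheory.measureReal_biUnion_finset_le s F

theorem GDS (cv : CV_stmt) : GDS_stmt := by
  intro n R S I h v₀ hn hS hv hV hfar
  have hsub : (Ev fun c => BAD c S v₀) ⊆ ⋃ s ∈ range (Nat.log 2 n + 1), ⋃ k ∈ (univ : Finset Bool), ⋃ p ∈ Icc (-400 : ℤ) 400, ⋃ q ∈ Icc (-400 : ℤ) 400,
      (Ev fun c => SR c k S (v₀.1 + 2 ^ s * p, v₀.2 + 2 ^ s * q) (2 ^ s)) := by
    intro β hβ
    have hb : BAD (col β) S v₀ := hβ
    rcases cv n (col β) S v₀ hn hS hv hb with ⟨w, hw, hd⟩ | ⟨s, hs, k, p, hp, q, hq, hsr⟩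
    · exfalso
      obtain ⟨i, hi, hwi⟩ := hV.1 w hw
      have h1 := hfar i hi
      have h2 := sd_triangle v₀ w i
      have h3 : 1 ≤ 2 ^ h i := Nat.one_le_two_pow
      omega
    · simp only [Set.mem_iUnion]
      exact ⟨s, hs, k, Finset.mem_univ k, p, hp, q, hq, hsr⟩
  refine (GDS_mono hsub).trans ?_
  refine (GDS_union _ _).trans ?_
  refine Finset.sum_le_sum fun s _ => ?_
  refine (GDS_union _ _).trans ?_
  refine Finset.sum_le_sum fun k _ => ?_
  refine (GDS_union _ _).trans ?_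
  refine Finset.sum_le_sum fun p _ => ?_
  exact GDS_union _ _

end TP.TW
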